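import Pool.Agent.H409_MG.Force

/-!
# Forcing preserves the winning strategies in the strong countable fan tightness game

Let player II have a winning strategy in the strong countable fan tightness game
`G₁(Ω_x, Ω_x)` on a space `X` at every point `x`. Then this is so in every forcing extension, for
the topology which has the topology of the ground model as a base. The forcing notion is an
arbitrary preordered set; it need not be (strongly) proper.

Proof: a winning strategy of player II gives a winning strategy of the first player in the dual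
game (he plays open neighbourhoods of `x`, his opponent points of them, he wins if `x` is in the
closure of these points). That a given strategy wins the dual game is absolute. In the extension
player II picks, in each round, the least point of the set played by player I which is in the
neighbourhood given by the strategy for the dual game.

The connectives of the forcing language are those of `Pool.Agent.Helper669.Forcing`; the sentences
`SubEq` (two named subsets of `X` are equal) and `OpenExt` (a named subset of `X` is open in the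
extension) are those of `Pool.Agent.H409_MG.Defs`.
-/

namespace Pool.Agent.Results.MP_07c8c2_lc.FanTightnessGamePreserved

open Pool.Agent.H409_MG Pool.Agent.Helper669.Forcing

universe u v

/-! ### The game -/

section ground

variable {X : Type v} [TopologicalSpace X]

/-- `Ω_x`, the set of the subsets of `X` which have `x` in their closure. -/
def Om (x : X) : Type v := {A : Set X // x ∈ closure A}

/-- Player II has a winning strategy in `G₁(Ω_x, Ω_x)`: in the round `n` player I plays `A n` in
`Ω_x` and the strategy `F` answers with the point `F n (A 0, …, A n)` of `A n`. -/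
def IIWins (x : X) : Prop :=
  ∃ F : (n : ℕ) → (Fin (n + 1) → Om x) → X,
    (∀ n A, F n A ∈ (A (Fin.last n)).1) ∧
      ∀ A : ℕ → Om x, x ∈ closure (Set.range fun n => F n fun i => A i)

end ground

/-! ### The game in the extension -/

section ext

variable {P : Type u} [Preorder P] {X : Type v}

/-- The subset of `X` named by `a` has exactly one element. -/
def IsPt (a : X → Set P) : Set P :=
  fand (fex fun y => meets (a y))
    (fall fun y => fall fun z => fimp (fand (meets (a y)) (meets (a z))) (fground (y = z)))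

/-- The subset of `X` named by `A` is contained in the one named by `B`. -/
def SubSub (A B : X → Set P) : Set P := fall fun y => fimp (meets (A y)) (meets (B y))

/-- The point `x` is in the closure of the subset of `X` named by `A`: every open set of the
extension which contains `x` meets this subset. -/
def ClExt [TopologicalSpace X] (x : X) (A : X → Set P) : Set P :=
  fall fun U : X → Set P => fimp (fand (OpenExt U) (meets (U x)))
    (fex fun y => fand (meets (U y)) (meets (A y)))

/-- `F` names a strategy of player II in `G₁(Ω_x, Ω_x)`: it answers the elements `A 0, …, A n` of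
`Ω_x` with a point of `A n`, which only depends on the sets named by `A 0, …, A n`. -/
def StratExt [TopologicalSpace X] (x : X)
    (F : (n : ℕ) → (Fin (n + 1) → X → Set P) → X → Set P) : Set P :=
  fall fun n => fall fun A : Fin (n + 1) → X → Set P =>
    fimp (fall fun i => ClExt x (A i))
      (fand (fand (IsPt (F n A)) (SubSub (F n A) (A (Fin.last n))))
        (fall fun B : Fin (n + 1) → X → Set P =>
          fimp (fall fun i => SubEq (A i) (B i)) (SubEq (F n A) (F n B))))

/-- In the extension, player II has a winning strategy in `G₁(Ω_x, Ω_x)` for the topology which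
has the ground model topology of `X` as a base. The set of the answers of the strategy to the
moves `A 0, A 1, …` of player I is named by `y ↦ ⋃ n, F n (A 0, …, A n) y`. -/
def IIWinsExt [TopologicalSpace X] (x : X) : Set P :=
  fex fun F : (n : ℕ) → (Fin (n + 1) → X → Set P) → X → Set P =>
    fand (StratExt x F)
      (fall fun A : ℕ → X → Set P => fimp (fall fun n => ClExt x (A n))
        (ClExt x fun y => ⋃ n, F n (fun i => A i) y))

end ext

/-! ### The dual game in the ground model -/

section dual

variable {X : Type v} [TopologicalSpace X] {x : X}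

instance : Inhabited (Om x) := ⟨⟨Set.univ, by simp⟩⟩

/-- the initial segment of length `n` -/
def pre {α : Type v} (y : ℕ → α) (n : ℕ) : List α := (List.range n).map y

theorem pre_succ {α : Type v} (y : ℕ → α) (n : ℕ) : pre y (n + 1) = pre y n ++ [y n] := by
  simp [pre, List.range_succ]

@[simp] theorem length_pre {α : Type v} (y : ℕ → α) (n : ℕ) : (pre y n).length = n := by simp [pre]

theorem getD_pre {α : Type v} (y : ℕ → α) {n i : ℕ} (h : i < n) (d : α) : (pre y n).getD i d = y i := by
  rw [List.getD_eq_getElem _ _ (by simpa using h)]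
  simp [pre]

/-- `V` is a winning strategy of the first player in the dual game -/
def DualStrat (x : X) (V : List X → Set X) : Prop :=
  (∀ s, IsOpen (V s) ∧ x ∈ V s) ∧
    ∀ y : ℕ → X, (∀ n, y n ∈ V (pre y n)) → x ∈ closure (Set.range y)

theorem exists_dual (h : IIWins x) : ∃ V : List X → Set X, DualStrat x V := by
  classical
  obtain ⟨F, hF, hw⟩ := h
  let G : List (Om x) → Om x → X := fun l A => F l.length fun i => (l ++ [A]).getD i default
  have hG : ∀ l A, G l A ∈ A.1 := by
    intro l A
    have h1 := hF l.length fun i => (l ++ [A]).getD i default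
    have h2 : (l ++ [A]).getD (Fin.last l.length : Fin (l.length + 1)) default = A := by simp
    rw [h2] at h1
    exact h1
  have key : ∀ l : List (Om x), ∃ U : Set X, (IsOpen U ∧ x ∈ U) ∧ ∀ y ∈ U, ∃ A, G l A = y := by
    intro l
    let C : Set X := {y | ¬∃ A, G l A = y}
    have hC : x ∉ closure C := by
      intro hx
      exact hG l ⟨C, hx⟩ ⟨_, rfl⟩
    refine ⟨(closure C)ᶜ, ⟨isClosed_closure.isOpen_compl, hC⟩, fun y hy => ?_⟩
    by_contra hne
    exact hy (subset_closure hne)
  choose U hU α hα using key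
  let β : List (Om x) → X → Om x := fun l y => if h : y ∈ U l then α l y h else default
  have hβ : ∀ l, ∀ y ∈ U l, G l (β l y) = y := by
    intro l y hy
    simp only [β, dif_pos hy]
    exact hα l y hy
  let play : List X → List (Om x) := fun s => s.foldl (fun l y => l ++ [β l y]) []
  have play_snoc : ∀ s y, play (s ++ [y]) = play s ++ [β (play s) y] := by
    intro s y
    simp [play, List.foldl_append]
  refine ⟨fun s => U (play s), fun s => hU _, fun y hy => ?_⟩
  let A : ℕ → Om x := fun n => β (play (pre y n)) (y n)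
  have hA : ∀ n, play (pre y n) = pre A n := by
    intro n
    induction n with
    | zero => rfl
    | succ n ih => rw [pre_succ, play_snoc, pre_succ, ih]; simp only [A, ih]
  have h1 := hw A
  have h2 : (fun n => F n fun i => A i) = y := by
    funext n
    have h3 : G (pre A n) (A n) = y n := by
      have h4 := hβ (play (pre y n)) (y n) (hy n)
      rw [hA] at h4
      simp only [A] at h4 ⊢
      rw [hA]
      exact h4
    rw [← h3]
    have h5 : ∀ (m : ℕ) (l : List (Om x)) (B : Om x), l.length = m →
        G l B = F m fun i => (l ++ [B]).getD i default := by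
      rintro m l B rfl
      rfl
    rw [h5 n _ _ (length_pre A n)]
    congr 1
    funext i
    rw [← pre_succ, getD_pre A i.2]
  rwa [h2] at h1

end dual

/-! ### The strategy in the extension -/

section force

variable {P : Type u} [Preorder P] {X : Type v} [TopologicalSpace X] {x : X}

/-- the point `y` is selected after the points `s` were selected -/
def Pick (V : List X → Set X) (A : X → Set P) (s : List X) (y : X) : Set P :=
  {p | y ∈ V s ∧ p ∈ meets (A y) ∧ ∀ z, WellOrderingRel z y → z ∈ V s → p ∈ fnot (meets (A z))}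

/-- the points `s` are selected in the first rounds -/
def Sel (V : List X → Set X) (A : ℕ → X → Set P) : List X → Set P
  | s => {p | ∀ (i : ℕ) (h : i < s.length), p ∈ Pick V (A i) (s.take i) s[i]}

variable {V : List X → Set X} {A B : ℕ → X → Set P} {s s' : List X} {y z : X} {p q : P}

omit [TopologicalSpace X] in
theorem pick_down {A : X → Set P} (h : p ∈ Pick V A s y) (hq : q ≤ p) : q ∈ Pick V A s y :=
  ⟨h.1, down_meets _ _ h.2.1 _ hq, fun z hz hzV => down_fnot _ _ (h.2.2 z hz hzV) _ hq⟩

omit [TopologicalSpace X] in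
theorem pick_unique {A : X → Set P} (h : p ∈ Pick V A s y) (h' : p ∈ Pick V A s z) : y = z := by
  rcases trichotomous_of WellOrderingRel y z with h1 | h1 | h1
  · exact absurd h.2.1 (h'.2.2 y h1 h.1 p le_rfl)
  · exact h1
  · exact absurd h'.2.1 (h.2.2 z h1 h'.1 p le_rfl)

omit [TopologicalSpace X] in
theorem pick_congr {A B : X → Set P} (h : p ∈ SubEq A B) (hA : p ∈ Pick V A s y) :
    p ∈ Pick V B s y := by
  have h1 := subEq_iff.1 h
  refine ⟨hA.1, (h1 y p le_rfl).1 hA.2.1, fun z hz hzV q hq hq' => ?_⟩
  exact hA.2.2 z hz hzV q hq ((h1 z q hq).2 hq')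

omit [TopologicalSpace X] in
theorem sel_down (h : p ∈ Sel V A s) (hq : q ≤ p) : q ∈ Sel V A s :=
  fun i hi => pick_down (h i hi) hq

omit [TopologicalSpace X] in
theorem sel_snoc : p ∈ Sel V A (s ++ [y]) ↔ p ∈ Sel V A s ∧ p ∈ Pick V (A s.length) s y := by
  constructor
  · intro h
    refine ⟨fun i hi => ?_, ?_⟩
    · have h1 := h i (by simp; omega)
      rw [List.take_append_of_le_length hi.le, List.getElem_append_left hi] at h1
      exact h1
    · have h1 := h s.length (by simp)
      rw [List.take_left', List.getElem_append_right le_rfl] at h1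
      · simpa using h1
      · rfl
  · rintro ⟨h1, h2⟩ i hi
    rcases Nat.lt_or_ge i s.length with h3 | h3
    · rw [List.take_append_of_le_length h3.le, List.getElem_append_left h3]
      exact h1 i h3
    · have h4 : i = s.length := by simp at hi; omega
      subst h4
      rw [List.take_left' rfl, List.getElem_append_right le_rfl]
      simpa using h2

omit [TopologicalSpace X] in
theorem sel_unique (h : p ∈ Sel V A s) (h' : p ∈ Sel V A s') (hl : s.length = s'.length) : s = s' := by
  induction s using List.reverseRecOn generalizing s' with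
  | nil =>
    rw [List.length_nil] at hl
    exact (List.length_eq_zero_iff.1 hl.symm).symm
  | append_singleton s y ih =>
    rcases List.eq_nil_or_concat' s' with rfl | ⟨t, z, rfl⟩
    · simp at hl
    · rw [sel_snoc] at h h'
      have hl' : s.length = t.length := by simpa using hl
      obtain rfl := ih h.1 h'.1 hl'
      rw [pick_unique h.2 h'.2]

omit [TopologicalSpace X] in
theorem sel_congr (h : ∀ i < s.length, p ∈ SubEq (A i) (B i)) (hA : p ∈ Sel V A s) : p ∈ Sel V B s :=
  fun i hi => pick_congr (h i hi) (hA i hi)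

theorem cl_ground {A : X → Set P} (h : p ∈ ClExt x A) {U : Set X} (hU : IsOpen U) (hx : x ∈ U) :
    ∃ q ≤ p, ∃ y ∈ U, q ∈ meets (A y) := by
  have h1 := h fun y => {_q : P | y ∈ U}
  have h2 : p ∈ fand (OpenExt fun y => {_q : P | y ∈ U}) (meets {_q : P | x ∈ U}) := by
    refine ⟨fun y => ?_, meets_of_mem hx⟩
    rw [mem_fimp]
    intro q _ hq
    obtain ⟨r, hr, s, hs, _⟩ := hq q le_rfl
    have hyU : y ∈ U := hs
    refine ⟨q, le_rfl, mem_fex_of_mem U (down_fand (down_fground _)
      (down_fall fun _ => down_fall fun _ => down_meets _)) ⟨⟨hU, hyU⟩, fun z hz => meets_of_mem hz⟩⟩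
  obtain ⟨r, hr, h3⟩ := mem_fimp.1 h1 p le_rfl h2
  obtain ⟨q, hq, y, hy, hyA⟩ := mem_fex.1 h3 r le_rfl
  obtain ⟨_, _, s, hs, _⟩ := hy q le_rfl
  exact ⟨q, hq.trans hr, y, hs, hyA⟩

theorem exists_pick (hV : DualStrat x V) {A : X → Set P} (h : p ∈ ClExt x A) (s : List X) :
    ∃ q ≤ p, ∃ y, q ∈ Pick V A s y := by
  classical
  obtain ⟨q₀, hq₀, y₀, hy₀, hA₀⟩ := cl_ground h (hV.1 s).1 (hV.1 s).2
  let S : Set X := {y | y ∈ V s ∧ ∃ q ≤ p, q ∈ meets (A y)}
  have hne : S.Nonempty := ⟨y₀, hy₀, q₀, hq₀, hA₀⟩
  have wf : WellFounded (WellOrderingRel : X → X → Prop) := IsWellFounded.wf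
  obtain ⟨hyV, q, hq, hqA⟩ := wf.min_mem S hne
  refine ⟨q, hq, wf.min S hne, hyV, hqA, fun z hz hzV r hr hrA => ?_⟩
  exact wf.not_lt_min S (x := z) ⟨hzV, r, hr.trans hq, hrA⟩ hz

theorem down_OpenExt (A : X → Set P) : Down (OpenExt A) := down_fall fun _ => down_fimp _ _

theorem down_ClExt (A : X → Set P) : Down (ClExt x A) := down_fall fun _ => down_fimp _ _

theorem exists_sel (hV : DualStrat x V) (h : ∀ i < s.length + 1, p ∈ ClExt x (A i)) (hs : p ∈ Sel V A s) :
    ∃ q ≤ p, ∃ y, q ∈ Sel V A (s ++ [y]) := by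
  obtain ⟨q, hq, y, hy⟩ := exists_pick hV (h s.length (Nat.lt_succ_self _)) s
  exact ⟨q, hq, y, sel_snoc.2 ⟨sel_down hs hq, hy⟩⟩

theorem exists_sel_len (hV : DualStrat x V) (n : ℕ) (h : ∀ i < n, p ∈ ClExt x (A i)) :
    ∃ q ≤ p, ∃ s, s.length = n ∧ q ∈ Sel V A s := by
  induction n with
  | zero => exact ⟨p, le_rfl, [], rfl, fun i hi => absurd hi (by simp)⟩
  | succ n ih =>
    obtain ⟨q, hq, s, hs, h1⟩ := ih fun i hi => h i (by omega)
    obtain ⟨r, hr, y, hy⟩ := exists_sel hV (s := s) (A := A) (p := q)
      (fun i hi => down_ClExt _ _ (h i (by omega)) _ hq) h1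
    exact ⟨r, hr.trans hq, s ++ [y], by simp [hs], hy⟩

/-- a finite sequence as a sequence -/
def pad {n : ℕ} (A : Fin (n + 1) → X → Set P) : ℕ → X → Set P := fun i =>
  if h : i < n + 1 then A ⟨i, h⟩ else fun _ => ∅

/-- the name of the strategy -/
def St (V : List X → Set X) (n : ℕ) (A : Fin (n + 1) → X → Set P) (y : X) : Set P :=
  {p | ∃ s : List X, s.length = n ∧ p ∈ Sel V (pad A) (s ++ [y])}

omit [Preorder P] [TopologicalSpace X] in
theorem pad_of_lt {n i : ℕ} (A : Fin (n + 1) → X → Set P) (h : i < n + 1) :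
    pad A i = A ⟨i, h⟩ := dif_pos h

omit [TopologicalSpace X] in
theorem st_down {n : ℕ} {A : Fin (n + 1) → X → Set P} : Down (St V n A y) := by
  rintro p ⟨s, hs, h⟩ q hq
  exact ⟨s, hs, sel_down h hq⟩

omit [TopologicalSpace X] in
theorem st_unique {n : ℕ} {A : Fin (n + 1) → X → Set P} (h : p ∈ St V n A y)
    (h' : p ∈ St V n A z) : y = z := by
  obtain ⟨s, hs, h⟩ := h
  obtain ⟨t, ht, h'⟩ := h'
  have h1 := sel_unique h h' (by simp [hs, ht])
  have h2 := (List.append_inj' h1 rfl).2
  simpa using h2

omit [TopologicalSpace X] in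
theorem st_congr {n : ℕ} {A B : Fin (n + 1) → X → Set P} (h : ∀ i, p ∈ SubEq (A i) (B i))
    (hA : p ∈ St V n A y) : p ∈ St V n B y := by
  obtain ⟨s, hs, h'⟩ := hA
  refine ⟨s, hs, sel_congr (fun i hi => ?_) h'⟩
  have hi' : i < n + 1 := by simp [hs] at hi; omega
  rw [pad_of_lt A hi', pad_of_lt B hi']
  exact h _

omit [TopologicalSpace X] in
theorem st_of_sel {n : ℕ} (hs : s.length = n) (h : p ∈ Sel V A (s ++ [y])) :
    p ∈ St V n (fun i => A i) y := by
  refine ⟨s, hs, sel_congr (fun i hi => ?_) h⟩
  have hi' : i < n + 1 := by simp [hs] at hi; omega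
  rw [pad_of_lt _ hi']
  exact subEq_refl _ _

theorem strat (hV : DualStrat x V) (p : P) : p ∈ StratExt x (St (P := P) V) := by
  intro n A
  rw [mem_fimp]
  intro q _ hcl
  refine ⟨q, le_rfl, ⟨⟨?_, ?_⟩, ?_⟩, ?_⟩
  · rw [mem_fex]
    intro r hr
    obtain ⟨r', hr', s, hs, h⟩ := exists_sel_len (A := pad A) (p := r) hV (n + 1) fun i hi => by
      rw [pad_of_lt A hi]
      exact down_ClExt _ _ (hcl _) _ hr
    rcases List.eq_nil_or_concat' s with rfl | ⟨t, y, rfl⟩
    · simp at hs
    · exact ⟨r', hr', y, meets_of_mem ⟨t, by simpa using hs, h⟩⟩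
  · intro y z
    rw [mem_fimp]
    rintro r _ ⟨h1, h2⟩
    obtain ⟨r1, hr1, h3⟩ := exists_of_meets st_down h1
    obtain ⟨r2, hr2, h4⟩ := exists_of_meets st_down (down_meets _ _ h2 _ hr1)
    exact ⟨r, le_rfl, st_unique (st_down _ h3 _ hr2) h4⟩
  · intro y
    rw [mem_fimp]
    intro r _ h1
    obtain ⟨r1, hr1, s, hs, h3⟩ := exists_of_meets st_down h1
    refine ⟨r1, hr1, ?_⟩
    have h4 := (sel_snoc.1 h3).2.2.1
    rw [hs, pad_of_lt A (Nat.lt_succ_self n)] at h4
    exact h4
  · intro B
    rw [mem_fimp]
    intro r _ h1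
    refine ⟨r, le_rfl, subEq_iff.2 fun y t ht => ⟨fun h => ?_, fun h => ?_⟩⟩
    · apply dc_meets
      intro t' ht'
      obtain ⟨t1, ht1, h3⟩ := exists_of_meets st_down (down_meets _ _ h _ ht')
      exact ⟨t1, ht1, meets_of_mem (st_congr (fun i =>
        down_SubEq _ _ _ (h1 i) _ (ht1.trans (ht'.trans ht))) h3)⟩
    · apply dc_meets
      intro t' ht'
      obtain ⟨t1, ht1, h3⟩ := exists_of_meets st_down (down_meets _ _ h _ ht')
      exact ⟨t1, ht1, meets_of_mem (st_congr (fun i => subEq_symm
        (down_SubEq _ _ _ (h1 i) _ (ht1.trans (ht'.trans ht)))) h3)⟩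

/-- one of the answers is in a given ground model neighbourhood of `x` -/
theorem hits (hV : DualStrat x V) (hcl : ∀ n, p ∈ ClExt x (A n)) {W : Set X} (hW : IsOpen W)
    (hx : x ∈ W) : ∃ q ≤ p, ∃ y ∈ W, ∃ n : ℕ, q ∈ St V n (fun i => A i) y := by
  by_contra hno
  have hno' : ∀ q ≤ p, ∀ y ∈ W, ∀ n : ℕ, q ∉ St V n (fun i => A i) y :=
    fun q hq y hy n h => hno ⟨q, hq, y, hy, n, h⟩
  let T : Type _ := {a : P × List X // a.1 ≤ p ∧ a.1 ∈ Sel V A a.2}
  have step : ∀ a : T, ∃ b : T, ∃ y, b.1.2 = a.1.2 ++ [y] := by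
    rintro ⟨⟨q, s⟩, hq, hs⟩
    obtain ⟨r, hr, y, hy⟩ := exists_sel (p := q) hV (fun i _ => down_ClExt _ _ (hcl i) _ hq) hs
    exact ⟨⟨⟨r, s ++ [y]⟩, hr.trans hq, hy⟩, y, rfl⟩
  choose nx Y hY using step
  let a₀ : T := ⟨⟨p, []⟩, le_rfl, fun i hi => absurd hi (by simp)⟩
  let σ : ℕ → T := fun n => nx^[n] a₀
  have hσ : ∀ n, σ (n + 1) = nx (σ n) := fun n => Function.iterate_succ_apply' nx n a₀
  let y : ℕ → X := fun n => Y (σ n)
  have hpre : ∀ n, (σ n).1.2 = pre y n := by
    intro n
    induction n with
    | zero => rfl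
    | succ n ih => rw [hσ, hY, ih, pre_succ]
  have hsel : ∀ n, (σ (n + 1)).1.1 ∈ Sel V A (pre y n ++ [y n]) := by
    intro n
    have h1 := (σ (n + 1)).2.2
    rw [hpre, pre_succ] at h1
    exact h1
  have hyV : ∀ n, y n ∈ V (pre y n) := fun n => (sel_snoc.1 (hsel n)).2.1
  have hyW : ∀ n, y n ∉ W := by
    intro n hn
    exact hno' _ (σ (n + 1)).2.1 _ hn n (st_of_sel (length_pre y n) (hsel n))
  obtain ⟨_, hz, ⟨n, rfl⟩⟩ := mem_closure_iff.1 (hV.2 y hyV) W hW hx
  exact hyW n hz

theorem wins (hV : DualStrat x V) (p : P) : p ∈ fall fun A : ℕ → X → Set P =>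
    fimp (fall fun n => ClExt x (A n)) (ClExt x fun y => ⋃ n, St V n (fun i => A i) y) := by
  intro A
  rw [mem_fimp]
  intro q _ hcl
  refine ⟨q, le_rfl, fun U => ?_⟩
  rw [mem_fimp]
  rintro r hr ⟨hU, hxU⟩
  obtain ⟨r1, hr1, h1⟩ := mem_fimp.1 (hU x) r le_rfl hxU
  obtain ⟨r2, hr2, W, ⟨hW, hxW⟩, hWU⟩ := mem_fex.1 h1 r1 le_rfl
  have hr2q : r2 ≤ q := hr2.trans (hr1.trans hr)
  refine ⟨r2, hr2.trans hr1, ?_⟩
  rw [mem_fex]
  intro t ht
  obtain ⟨t1, ht1, y, hy, n, h2⟩ := hits (p := t) hV
    (fun n => down_ClExt _ _ (hcl n) _ (ht.trans hr2q)) hW hxW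
  exact ⟨t1, ht1, y, down_meets _ _ (hWU y hy) _ (ht1.trans ht),
    meets_of_mem (Set.mem_iUnion.2 ⟨n, h2⟩)⟩

end force

/-- If player II has a winning strategy in `G₁(Ω_x, Ω_x)` at every point `x` of the space `X`,
then every forcing notion forces this for the topology which has the topology of `X` as a base. -/
theorem result (P : Type u) [Preorder P] (X : Type v) [TopologicalSpace X]
    (h : ∀ x : X, IIWins x) (p : P) : p ∈ fall fun x : X => IIWinsExt (P := P) x := by
  intro x
  obtain ⟨V, hV⟩ := exists_dual (h x)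
  exact mem_fex.2 fun q _ => ⟨q, le_rfl, St V, strat hV q, wins hV q⟩

end Pool.Agent.Results.MP_07c8c2_lc.FanTightnessGamePreserved
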